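import Pool.Agent.H20.SW.Main

/-!
The lower bound for `L(1 + iy, χ)` and the bounds for the derivatives of `-L'/L`, in terms of a
lower bound for `L(1, χ)` (only needed for quadratic `χ`).  Adapted from helper20's `H20/SW`.
-/

set_option autoImplicit false

namespace Pool.Agent.H68.UF

open Pool.Agent.SW
open Complex Finset Filter Topology Metric LSeries
open ArithmeticFunction (vonMangoldt vonMangoldt_nonneg)

/-- uniform lower bound on the line `Re s = 1` -/
theorem LFunction_lower' : ∃ K : ℝ, 1 ≤ K ∧ ∀ (q : ℕ) [NeZero q] (χ : DirichletCharacter ℂ q),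
    χ ≠ 1 → ∀ M : ℝ, 1 ≤ M →
    (χ ^ 2 = 1 → 1 / (64 * M) ≤ ‖DirichletCharacter.LFunction χ 1‖) →
    ∀ y : ℝ, 1 / (K * M * lg q y ^ 9) ≤
      ‖DirichletCharacter.LFunction χ (1 + I * y)‖ := by
  refine ⟨32 * 49 ^ 3 * 384 ^ 3 * 24624, by norm_num, ?_⟩
  intro q _ χ hχ M hM hone y
  have hq := one_le_q (q := q)
  have hl := one_le_lg hq y
  have hl2 : 1 ≤ lg q y ^ 2 := one_le_pow₀ hl
  have hl3 : 1 ≤ lg q y ^ 3 := one_le_pow₀ hl
  have hD : 1 ≤ 384 * lg q y ^ 2 := by linarith
  have main : ∀ P : ℝ, 1 ≤ P → P ≤ 24624 * (M * lg q y ^ 3) →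
      (∀ x : ℝ, 0 < x → x ≤ 1 →
        ‖DirichletCharacter.LFunction (χ ^ 2) (1 + x + 2 * I * y)‖ ≤ P) →
      1 / (32 * 49 ^ 3 * 384 ^ 3 * 24624 * M * lg q y ^ 9) ≤
      ‖DirichletCharacter.LFunction χ (1 + I * y)‖ := by
    intro P hP1 hP2 hP
    have h := abs341 (norm_nonneg (DirichletCharacter.LFunction χ (1 + I * y)))
      (C3 := 49 ^ 3) (by norm_num) hD hP1 (fun x hx0 hx1 =>
        ⟨‖DirichletCharacter.LFunction χ (1 + x + I * y)‖, norm_nonneg _,
          norm_LFunction_horizontal χ hχ y hx0 hx1, ?_⟩)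
    · refine le_trans ?_ h
      apply one_div_le_one_div_of_le (by positivity)
      calc 32 * 49 ^ 3 * (384 * lg q y ^ 2) ^ 3 * P ≤
          32 * 49 ^ 3 * (384 * lg q y ^ 2) ^ 3 * (24624 * (M * lg q y ^ 3)) := by gcongr
        _ = 32 * 49 ^ 3 * 384 ^ 3 * 24624 * M * lg q y ^ 9 := by ring
    · refine (three_four_one χ y hx0 hx1).trans ?_
      gcongr
      exact hP x hx0 hx1
  by_cases hχ2 : χ ^ 2 = 1
  · by_cases hy : |y| ≤ 1 / (128 * M * (384 * lg q y ^ 2))
    · -- close to the real axis
      have h1 := hone hχ2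
      have h2 := norm_LFunction_vertical χ hχ y
      have h3 : 384 * lg q y ^ 2 * |y| ≤ 1 / (128 * M) := by
        calc 384 * lg q y ^ 2 * |y| ≤
            384 * lg q y ^ 2 * (1 / (128 * M * (384 * lg q y ^ 2))) := by gcongr
          _ = 1 / (128 * M) := by field_simp
      have h4 : 1 / (64 * M) = 1 / (128 * M) + 1 / (128 * M) := by field_simp; norm_num
      have h5 : 1 / (32 * 49 ^ 3 * 384 ^ 3 * 24624 * M * lg q y ^ 9) ≤ 1 / (128 * M) := by
        apply one_div_le_one_div_of_le (by positivity)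
        have h6 : 1 ≤ lg q y ^ 9 := one_le_pow₀ hl
        calc 128 * M ≤ 32 * 49 ^ 3 * 384 ^ 3 * 24624 * M * 1 := by nlinarith
          _ ≤ 32 * 49 ^ 3 * 384 ^ 3 * 24624 * M * lg q y ^ 9 := by gcongr
      linarith
    · push Not at hy
      have hy0 : 0 < |y| := lt_of_le_of_lt (by positivity) hy
      refine main (24624 * (M * lg q y ^ 3)) ?_ (le_refl _) fun x hx0 hx1 => ?_
      · have : 1 ≤ M * lg q y ^ 3 := one_le_mul_of_one_le_of_one_le hM hl3
        linarith
      · rw [hχ2]
        have hre : 1 < (1 + x + 2 * I * y : ℂ).re := by simp; linarith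
        refine (norm_trivChar_le hre).trans ?_
        have him : (1 + x + 2 * I * y : ℂ).im = 2 * y := by simp
        have hz := norm_zeta_le_of_im hre (by simp; linarith) (by
          rw [him]
          have : y ≠ 0 := abs_pos.1 hy0
          simpa using this)
        rw [him] at hz
        have h1 : 1 / |2 * y| ≤ 24576 * (M * lg q y ^ 2) := by
          rw [abs_mul, abs_two, div_le_iff₀ (by positivity)]
          have h2 : 1 / (128 * M * (384 * lg q y ^ 2)) * (24576 * (M * lg q y ^ 2) * 2) = 1 := by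
            field_simp; norm_num
          calc (1 : ℝ) = 1 / (128 * M * (384 * lg q y ^ 2)) * (24576 * (M * lg q y ^ 2) * 2) :=
                h2.symm
            _ ≤ |y| * (24576 * (M * lg q y ^ 2) * 2) := by gcongr
            _ = _ := by ring
        have h2 : lg 1 (2 * y) ≤ 2 * lg q y :=
          (lg_mono_left (le_refl _) hq).trans (lg_two_mul_le hq y)
        have h3 : 1 + Real.log q ≤ lg q y := by
          have h4 : lg q y = Real.log q + lg 1 y := by
            unfold lg
            have : (0 : ℝ) ≤ |y| := abs_nonneg y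
            rw [Real.log_mul (by positivity) (by positivity), one_mul]
          have h5 := one_le_lg (le_refl (1 : ℝ)) y
          linarith
        have h6 : ‖riemannZeta (1 + x + 2 * I * y)‖ ≤ 24624 * (M * lg q y ^ 2) := by
          have h7 : lg q y ≤ M * lg q y ^ 2 := by nlinarith
          linarith
        have h8 : 0 ≤ 1 + Real.log (q : ℝ) := by
          have := Real.log_nonneg hq
          linarith
        calc (1 + Real.log q) * ‖riemannZeta (1 + x + 2 * I * y)‖ ≤
            lg q y * (24624 * (M * lg q y ^ 2)) := by gcongr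
          _ = 24624 * (M * lg q y ^ 3) := by ring
  · refine main (48 * lg q y) (by linarith) ?_ fun x hx0 hx1 => ?_
    · have h1 : lg q y ≤ M * lg q y ^ 3 := by
        have : lg q y ^ 3 = lg q y * lg q y ^ 2 := by ring
        nlinarith
      nlinarith
    · have him : (1 + x + 2 * I * y : ℂ).im = 2 * y := by simp
      have hre : (1 + x + 2 * I * y : ℂ).re = 1 + x := by simp
      have hl' := lg_pos hq (2 * y)
      have h3 : 0 ≤ 1 / (2 * lg q (2 * y)) := by positivity
      have h1 := norm_LFunction_le (χ ^ 2) hχ2 (s := 1 + x + 2 * I * y)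
        (by rw [him, hre]; linarith) (by rw [hre]; linarith)
      rw [him] at h1
      have := lg_two_mul_le hq y
      linarith

/-- (X) -/
theorem char_F' (k : ℕ) : ∃ C : ℝ, 0 ≤ C ∧ ∀ (d : ℕ) [NeZero d] (χ : DirichletCharacter ℂ d),
    χ ≠ 1 → ∀ M : ℝ, 1 ≤ M →
    (χ ^ 2 = 1 → 1 / (64 * M) ≤ ‖DirichletCharacter.LFunction χ 1‖) → ∀ s : ℂ, 1 < s.re → s.re ≤ 2 →
    ‖LSeries (fun n : ℕ => χ n * ((ArithmeticFunction.vonMangoldt n * Real.log n ^ k : ℝ) : ℂ)) s‖ ≤
      C * (M * Real.log (d * (|s.im| + 3)) ^ 12) ^ (k + 1) := by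
  obtain ⟨C, hC, hfar⟩ := far_bound k
  obtain ⟨K, hK, hlow⟩ := LFunction_lower'
  refine ⟨(C * 2 ^ (k + 1) + k.factorial * 2 ^ k) * (3072 * K) ^ (k + 1), by positivity, ?_⟩
  intro d _ χ hχ M hM hone s hs hs2
  set y := s.im with hy
  have hq := one_le_q (q := d)
  have hl := one_le_lg hq y
  set l := lg d y with hldef
  have hlog : Real.log (d * (|y| + 3)) = l := rfl
  rw [hlog]
  have hl2 : 1 ≤ l ^ 2 := one_le_pow₀ hl
  have hl9 : 1 ≤ l ^ 9 := one_le_pow₀ hl
  set ρ : ℝ := 1 / (3072 * K * M * l ^ 11) with hρ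
  have hρ0 : 0 < ρ := by positivity
  have hρinv : 1 / ρ = 3072 * K * (M * l ^ 11) := by
    rw [hρ, one_div_one_div]; ring
  -- it suffices to bound by `(1/ρ)^(k+1)`
  have hfin : (C * 2 ^ (k + 1) + k.factorial * 2 ^ k) * (1 / ρ) ^ (k + 1) ≤
      (C * 2 ^ (k + 1) + k.factorial * 2 ^ k) * (3072 * K) ^ (k + 1) *
        (M * l ^ 12) ^ (k + 1) := by
    rw [hρinv, mul_pow, mul_assoc]
    gcongr
    norm_num
  refine le_trans ?_ hfin
  have hkf : (0 : ℝ) ≤ k.factorial * 2 ^ k * (1 / ρ) ^ (k + 1) := by positivity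
  have hCf : (0 : ℝ) ≤ C * 2 ^ (k + 1) * (1 / ρ) ^ (k + 1) := by positivity
  rw [add_mul]
  rcases le_total (s.re - 1) (ρ / 2) with hcase | hcase
  · -- near the line
    have hρ16 : ρ ≤ 1 / (16 * l) := by
      rw [hρ]
      apply one_div_le_one_div_of_le (by positivity)
      calc 16 * l = 16 * 1 * 1 * (l * 1) := by ring
        _ ≤ 3072 * K * M * (l * l ^ 10) := by
          have : 1 ≤ l ^ 10 := one_le_pow₀ hl
          gcongr
          norm_num
        _ = _ := by ring
    set s₀ : ℂ := 1 + I * y with hs₀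
    have hball : ∀ w ∈ closedBall s₀ ρ, ‖deriv (DirichletCharacter.LFunction χ) w‖ ≤
        1536 * l ^ 2 := by
      intro w hw
      rw [mem_closedBall, dist_eq_norm] at hw
      have hre : |w.re - 1| ≤ ρ := by
        have := (Complex.abs_re_le_norm (w - s₀)).trans hw
        simpa [hs₀] using this
      have him : |w.im - y| ≤ ρ := by
        have := (Complex.abs_im_le_norm (w - s₀)).trans hw
        simpa [hs₀] using this
      have h16 : 1 / (16 * l) ≤ 1 / 16 := by
        apply one_div_le_one_div_of_le (by norm_num); linarith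
      have him' : |w.im| ≤ |y| + 1 := by
        have := abs_sub_abs_le_abs_sub w.im y
        linarith
      have hlw := lg_le_two_mul hq him'
      have hlw1 := one_le_lg hq w.im
      have h8 : 1 / (16 * l) ≤ 1 / (8 * lg d w.im) := by
        apply one_div_le_one_div_of_le (by linarith); linarith
      have hre' := abs_le.1 hre
      refine (norm_deriv_LFunction_le χ hχ (by linarith) (by linarith)).trans ?_
      calc 384 * lg d w.im ^ 2 ≤ 384 * (2 * l) ^ 2 := by gcongr
        _ = 1536 * l ^ 2 := by ring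
    have hbig : 2 * (1536 * l ^ 2) * ρ ≤ ‖DirichletCharacter.LFunction χ s₀‖ := by
      refine le_trans (le_of_eq ?_) (hlow d χ hχ M hM hone y)
      rw [hρ, ← hldef]
      field_simp
      norm_num
    have hdisc := disc_logDeriv (DirichletCharacter.differentiable_LFunction hχ) hρ0
      (by positivity) hball hbig
    have hds : dist s s₀ ≤ ρ / 2 := by
      rw [dist_eq_norm]
      have h1 : s - s₀ = ((s.re - 1 : ℝ) : ℂ) := by
        apply Complex.ext <;> simp [hs₀, hy]
      rw [h1, Complex.norm_real, Real.norm_of_nonneg (by linarith)]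
      exact hcase
    have hit := iter_bound (F := fun w => -deriv (DirichletCharacter.LFunction χ) w /
      DirichletCharacter.LFunction χ w) (M := 1 / ρ) hρ0 (fun w hw => by
        have hd := DirichletCharacter.differentiable_LFunction hχ
        exact (hd.deriv w).neg.div (hd w) (hdisc w hw).1) (fun w hw => by
        rw [neg_div, norm_neg]
        exact (hdisc w hw).2) hds k
    have heq : ‖LSeries (fun n : ℕ => χ n * ((vonMangoldt n * Real.log n ^ k : ℝ) : ℂ)) s‖ =
        ‖iteratedDeriv k (fun w => -deriv (DirichletCharacter.LFunction χ) w /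
          DirichletCharacter.LFunction χ w) s‖ := by
      rw [← LSeries_log_pow_eq (g := (fun n : ℕ => χ (n : ZMod d)) *
        (fun n : ℕ => ((vonMangoldt n : ℝ) : ℂ)))
        (fun s hs => DirichletCharacter.LSeriesSummable_twist_vonMangoldt χ hs) (fun s hs => ?_) k hs]
      · congr 1
        refine LSeries_congr (fun {n} _ => ?_) s
        simp only [Pi.mul_apply]
        push_cast
        ring
      · rw [DirichletCharacter.LSeries_twist_vonMangoldt_eq χ hs,
          DirichletCharacter.LFunction_eq_LSeries χ hs]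
        congr 2
        refine Filter.EventuallyEq.deriv_eq ?_
        filter_upwards [(isOpen_re_gt 1).mem_nhds (show s ∈ {s : ℂ | 1 < s.re} from hs)]
          with w hw
        exact (DirichletCharacter.LFunction_eq_LSeries χ hw).symm
    rw [heq]
    refine hit.trans (le_trans (le_of_eq ?_) (le_add_of_nonneg_left hCf))
    rw [pow_succ, div_pow, one_div, inv_pow]
    field_simp
  · -- away from the line
    have h1 := hfar (fun n : ℕ => χ n * ((vonMangoldt n * Real.log n ^ k : ℝ) : ℂ))
      (fun n => ?_) s hs hs2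
    · refine h1.trans ((near_or_far hρ0 hC k hcase).trans (le_add_of_nonneg_right hkf))
    · have hL := vonMangoldt_nonneg (n := n)
      have hlogn : 0 ≤ Real.log (n : ℝ) := Real.log_natCast_nonneg n
      rw [norm_mul, Complex.norm_real, Real.norm_of_nonneg (by positivity)]
      have h2 := χ.norm_le_one (n : ZMod d)
      have h3 : 0 ≤ vonMangoldt n * Real.log n ^ k := by positivity
      have h4 : 0 ≤ Real.log (n : ℝ) ^ k := by positivity
      nlinarith

end Pool.Agent.H68.UF
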